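import Mathlib
import Pool.Agent.W856.SV.Stms

set_option autoImplicit false

open MeasureTheory Matrix
open scoped ENNReal

namespace Pool.Agent.W991.SV

open Pool.Agent.W856.SV

theorem t_SYM : S_SYM := by
  intro ι _ _ G i j
  have h : Em Gᵀ j i = (Em G i j)ᵀ := by
    ext l k
    simp only [Em, Matrix.of_apply, Matrix.transpose_apply]
    ring
  unfold hsE
  rw [h]
  generalize Em G i j = E
  unfold hsOf
  have h1 : (Eᵀ * Eᵀᵀ).trace = (E * Eᵀ).trace := by
    rw [Matrix.transpose_transpose, Matrix.trace_mul_comm]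
  have h2 : (Eᵀ * Eᵀᵀ * (Eᵀ * Eᵀᵀ)).trace = (E * Eᵀ * (E * Eᵀ)).trace := by
    rw [Matrix.transpose_transpose]
    calc (Eᵀ * E * (Eᵀ * E)).trace = (Eᵀ * (E * (Eᵀ * E))).trace := by rw [Matrix.mul_assoc]
      _ = (E * (Eᵀ * E) * Eᵀ).trace := Matrix.trace_mul_comm _ _
      _ = (E * Eᵀ * (E * Eᵀ)).trace := by simp only [Matrix.mul_assoc]
  rw [h1, h2]

theorem w2_eq {ι : Type} [Fintype ι] [DecidableEq ι] (G : Matrix ι ι ℝ) (i : ι) :
    w2 G i = ∑ k, (col2 G i * col2 G k - (∑ l, G l i * G l k) ^ 2) := by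
  unfold w2
  rw [Finset.sum_sub_distrib, ← Finset.mul_sum]
  have h1 : hsn G = ∑ k, col2 G k := by
    unfold hsn col2
    exact Finset.sum_comm
  rw [h1]
  congr 1

theorem w2_nonneg {ι : Type} [Fintype ι] [DecidableEq ι] (G : Matrix ι ι ℝ) (i : ι) :
    0 ≤ w2 G i := by
  rw [w2_eq]
  refine Finset.sum_nonneg fun k _ => ?_
  unfold col2
  have := Finset.sum_mul_sq_le_sq_mul_sq Finset.univ (fun l => G l i) (fun l => G l k)
  linarith

theorem sum_w2 {ι : Type} [Fintype ι] [DecidableEq ι] (G : Matrix ι ι ℝ) :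
    ∑ i, w2 G i = e2 G := by
  unfold w2 e2
  rw [Finset.sum_sub_distrib, ← Finset.sum_mul]
  have h1 : ∑ i, col2 G i = hsn G := by
    unfold hsn col2
    exact Finset.sum_comm
  rw [h1]
  ring

theorem t_WSUM : S_WSUM := by
  intro ι _ _ G
  apply Real.le_sqrt_of_sq_le
  have h1 : (∑ i, Real.sqrt (w2 G i / e2 G)) ^ 2 ≤
      (Finset.univ : Finset ι).card * ∑ i, Real.sqrt (w2 G i / e2 G) ^ 2 :=
    sq_sum_le_card_mul_sum_sq
  have he : 0 ≤ e2 G := by rw [← sum_w2]; exact Finset.sum_nonneg fun i _ => w2_nonneg G i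
  have h2 : ∑ i, Real.sqrt (w2 G i / e2 G) ^ 2 ≤ 1 := by
    have h3 : ∀ i, Real.sqrt (w2 G i / e2 G) ^ 2 = w2 G i / e2 G := fun i =>
      Real.sq_sqrt (div_nonneg (w2_nonneg G i) he)
    simp only [h3]
    rw [← Finset.sum_div, sum_w2]
    exact div_self_le_one _
  refine h1.trans ?_
  rw [Finset.card_univ]
  have : (0 : ℝ) ≤ Fintype.card ι := by positivity
  nlinarith

theorem t_PART : S_PART := by
  classical
  intro ι _ _ φ RB CB hφ h1 hRB hCB
  obtain ⟨a, ha⟩ : ∃ a : ι → ℝ, a = fun i => ∑ j, φ i j := ⟨_, rfl⟩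
  obtain ⟨b, hb⟩ : ∃ b : ι → ℝ, b = fun j => ∑ i, φ i j := ⟨_, rfl⟩
  have hb0 : ∀ j, 0 ≤ b j := fun j => by rw [hb]; exact Finset.sum_nonneg fun i _ => hφ i j
  have hbs : ∑ j, b j = 1 := by rw [hb, ← h1]; exact Finset.sum_comm
  obtain ⟨A, hA⟩ : ∃ A, A = ∑ i, if ∃ j, RB i j then 0 else ∑ j, φ i j := ⟨_, rfl⟩
  obtain ⟨B, hB⟩ : ∃ B, B = ∑ j, if ∃ i, CB j i then 0 else ∑ i, φ i j := ⟨_, rfl⟩
  obtain ⟨DB, hDB⟩ : ∃ DB, DB = ∑ i, ∑ j, if RB i j ∧ CB j i then φ i j else 0 := ⟨_, rfl⟩
  have hA0 : 0 ≤ A := by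
    rw [hA]
    refine Finset.sum_nonneg fun i _ => ?_
    split_ifs
    · exact le_rfl
    · exact Finset.sum_nonneg fun j _ => hφ i j
  -- rows
  have s1 : 1 ≤ A + 4 / 3 * ∑ i, ∑ j, (if RB i j then φ i j else 0) := by
    rw [← h1, hA, Finset.mul_sum, ← Finset.sum_add_distrib]
    refine Finset.sum_le_sum fun i _ => ?_
    by_cases hi : ∃ j, RB i j
    · rw [if_pos hi]
      obtain ⟨j, hj⟩ := hi
      have h2 := hRB i j hj
      have h3 : φ i j ≤ ∑ j, (if RB i j then φ i j else 0) := by
        refine le_trans ?_ (Finset.single_le_sum (f := fun j => if RB i j then φ i j else 0)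
          (fun j _ => by
            split_ifs
            · exact hφ i j
            · exact le_rfl) (Finset.mem_univ j))
        simp only [if_pos hj, le_refl]
      linarith
    · rw [if_neg hi]
      have : 0 ≤ ∑ j, (if RB i j then φ i j else 0) := Finset.sum_nonneg fun j _ => by
        split_ifs
        · exact hφ i j
        · exact le_rfl
      linarith
  -- the third part
  have s2 : ∑ j, ∑ i, (if (∃ i', CB j i') ∧ ¬ CB j i then φ i j else 0) ≤ 1 / 4 := by
    have h2 : ∀ j, ∑ i, (if (∃ i', CB j i') ∧ ¬ CB j i then φ i j else 0) ≤ 1 / 4 * b j := by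
      intro j
      by_cases hj : ∃ i', CB j i'
      · obtain ⟨i', hi'⟩ := hj
        have h3 := hCB j i' hi'
        have h4 : ∑ i, (if (∃ i', CB j i') ∧ ¬ CB j i then φ i j else 0) ≤ b j - φ i' j := by
          have h5 : b j - φ i' j = ∑ i ∈ Finset.univ.erase i', φ i j := by
            rw [hb]
            simp only
            rw [← Finset.add_sum_erase _ _ (Finset.mem_univ i')]
            ring
          rw [h5, ← Finset.add_sum_erase _ _ (Finset.mem_univ i')]
          have h6 : ¬ ((∃ i', CB j i') ∧ ¬ CB j i') := fun h => h.2 hi'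
          rw [if_neg h6, zero_add]
          refine Finset.sum_le_sum fun i _ => ?_
          split_ifs
          · exact le_rfl
          · exact hφ i j
        have h5 : b j = ∑ k, φ k j := by rw [hb]
        rw [← h5] at h3
        linarith
      · refine le_trans (le_of_eq ?_) (mul_nonneg (by norm_num) (hb0 j))
        refine Finset.sum_eq_zero fun i _ => ?_
        rw [if_neg fun h => hj h.1]
    calc _ ≤ ∑ j, 1 / 4 * b j := Finset.sum_le_sum fun j _ => h2 j
      _ = 1 / 4 := by rw [← Finset.mul_sum, hbs, mul_one]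
  have s3 : ∑ i, ∑ j, (if RB i j then φ i j else 0) ≤ B + DB + 1 / 4 := by
    have h2 : ∑ i, ∑ j, (if RB i j then φ i j else 0) ≤
        ∑ i, ∑ j, ((if ∃ i', CB j i' then 0 else φ i j) +
          (if RB i j ∧ CB j i then φ i j else 0) +
          (if (∃ i', CB j i') ∧ ¬ CB j i then φ i j else 0)) := by
      refine Finset.sum_le_sum fun i _ => Finset.sum_le_sum fun j _ => ?_
      have h0 := hφ i j
      by_cases hr : RB i j
      · by_cases hc : CB j i
        · have hex : ∃ i', CB j i' := ⟨i, hc⟩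
          simp [hr, hc, hex]
        · by_cases hex : ∃ i', CB j i'
          · simp only [if_pos hr, if_pos hex, hc, and_false, if_false, not_false_eq_true,
              and_true, hex, if_true]
            linarith
          · simp only [if_pos hr, if_neg hex, hc, and_false, if_false, not_false_eq_true,
              and_true]
            linarith
      · rw [if_neg hr]
        have e1 : (0 : ℝ) ≤ if ∃ i', CB j i' then 0 else φ i j := by
          split_ifs
          · exact le_rfl
          · exact h0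
        have e2 : (0 : ℝ) ≤ if RB i j ∧ CB j i then φ i j else 0 := by
          split_ifs
          · exact h0
          · exact le_rfl
        have e3 : (0 : ℝ) ≤ if (∃ i', CB j i') ∧ ¬ CB j i then φ i j else 0 := by
          split_ifs
          · exact h0
          · exact le_rfl
        linarith
    have h3 : ∑ i, ∑ j, (if ∃ i', CB j i' then (0 : ℝ) else φ i j) = B := by
      rw [hB, Finset.sum_comm]
      refine Finset.sum_congr rfl fun j _ => ?_
      split_ifs
      · simp
      · rfl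
    have h4 : ∑ i, ∑ j, (if (∃ i', CB j i') ∧ ¬ CB j i then φ i j else 0) ≤ 1 / 4 := by
      rw [Finset.sum_comm]; exact s2
    refine h2.trans ?_
    simp only [Finset.sum_add_distrib]
    rw [h3, ← hDB]
    linarith
  have hgoal : 1 ≤ 2 * (A + B + DB) := by linarith
  rw [hA, hB, hDB] at hgoal
  convert hgoal using 5

end Pool.Agent.W991.SV
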