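import Mathlib
import Pool.Agent.W856.SV.Stms

set_option autoImplicit false

open MeasureTheory Matrix
open scoped ENNReal

namespace Pool.Agent.W991.SV

open Pool.Agent.W856.SV

theorem adj_row {ι : Type} [Fintype ι] [DecidableEq ι] (B : Matrix ι ι ℝ) (i : ι) (v : ι → ℝ)
    (k : ι) : (B.updateRow i v).adjugate k i = B.adjugate k i := by
  rw [Matrix.adjugate_apply, Matrix.adjugate_apply]
  congr 1
  ext a b
  by_cases h : a = i
  · subst h; simp
  · simp [Matrix.updateRow_ne h]

/-- the integral of the truncated inverse square -/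
theorem int_min (h : ℝ) (hh : 0 < h) :
    ∫⁻ s : ℝ, ENNReal.ofReal (min 1 (1 / (s ^ 2 * h ^ 2))) ≤ ENNReal.ofReal (4 / h) := by
  have hih : 0 < 1 / h := by positivity
  have hcover : (Set.univ : Set ℝ) ⊆
      Set.Icc (-(1 / h)) (1 / h) ∪ (Set.Ioi (1 / h) ∪ Set.Iio (-(1 / h))) := by
    intro x _
    by_cases h1 : 1 / h < x
    · exact Or.inr (Or.inl h1)
    · by_cases h2 : x < -(1 / h)
      · exact Or.inr (Or.inr h2)
      · exact Or.inl ⟨not_lt.1 h2, not_lt.1 h1⟩
  have htail : ∫⁻ s in Set.Ioi (1 / h), ENNReal.ofReal (1 / (s ^ 2 * h ^ 2)) ≤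
      ENNReal.ofReal (1 / h) := by
    have i1 : IntegrableOn (fun s : ℝ => s ^ (-2 : ℝ)) (Set.Ioi (1 / h)) :=
      integrableOn_Ioi_rpow_of_lt (by norm_num) hih
    have i2 := integral_Ioi_rpow_of_lt (a := -2) (c := 1 / h) (by norm_num) hih
    have e1 : ∫⁻ s in Set.Ioi (1 / h), ENNReal.ofReal (1 / (s ^ 2 * h ^ 2)) =
        ∫⁻ s in Set.Ioi (1 / h), ENNReal.ofReal (s ^ (-2 : ℝ) * (1 / h ^ 2)) := by
      refine setLIntegral_congr_fun measurableSet_Ioi fun s hs => ?_
      have hs0 : 0 < s := hih.trans hs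
      congr 1
      rw [Real.rpow_neg hs0.le]
      norm_num
      ring
    rw [e1, ← ofReal_integral_eq_lintegral_ofReal (i1.mul_const _)
      ((ae_restrict_iff' measurableSet_Ioi).2 (Filter.Eventually.of_forall fun s hs => by
        have hs0 : 0 < s := hih.trans hs
        positivity))]
    rw [integral_mul_const, i2]
    refine ENNReal.ofReal_le_ofReal (le_of_eq ?_)
    have : ((1 / h : ℝ)) ^ ((-2 : ℝ) + 1) = h := by
      norm_num
      rw [Real.rpow_neg_one, inv_inv]
    rw [this]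
    field_simp
    norm_num
  have htail2 : ∫⁻ s in Set.Iio (-(1 / h)), ENNReal.ofReal (1 / (s ^ 2 * h ^ 2)) ≤
      ENNReal.ofReal (1 / h) := by
    refine le_trans (le_of_eq ?_) htail
    have hmp := (Measure.measurePreserving_neg (volume : Measure ℝ))
    have := hmp.setLIntegral_comp_preimage (s := Set.Ioi (1 / h)) measurableSet_Ioi
      (f := fun s : ℝ => ENNReal.ofReal (1 / (s ^ 2 * h ^ 2))) (by fun_prop)
    rw [← this]
    have e2 : (fun s : ℝ => -s) ⁻¹' Set.Ioi (1 / h) = Set.Iio (-(1 / h)) := by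
      ext s
      simp only [Set.mem_preimage, Set.mem_Ioi, Set.mem_Iio]
      constructor <;> intro h <;> linarith
    change _ = ∫⁻ s in (fun s : ℝ => -s) ⁻¹' Set.Ioi (1 / h), ENNReal.ofReal (1 / ((-s) ^ 2 * h ^ 2))
    rw [e2]
    simp only [neg_sq]
  calc ∫⁻ s : ℝ, ENNReal.ofReal (min 1 (1 / (s ^ 2 * h ^ 2)))
      = ∫⁻ s in Set.univ, ENNReal.ofReal (min 1 (1 / (s ^ 2 * h ^ 2))) := by
        rw [Measure.restrict_univ]
    _ ≤ ∫⁻ s in Set.Icc (-(1 / h)) (1 / h) ∪ (Set.Ioi (1 / h) ∪ Set.Iio (-(1 / h))),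
          ENNReal.ofReal (min 1 (1 / (s ^ 2 * h ^ 2))) := lintegral_mono_set hcover
    _ ≤ (∫⁻ s in Set.Icc (-(1 / h)) (1 / h), ENNReal.ofReal (min 1 (1 / (s ^ 2 * h ^ 2)))) +
        ((∫⁻ s in Set.Ioi (1 / h), ENNReal.ofReal (min 1 (1 / (s ^ 2 * h ^ 2)))) +
          ∫⁻ s in Set.Iio (-(1 / h)), ENNReal.ofReal (min 1 (1 / (s ^ 2 * h ^ 2)))) :=
        (lintegral_union_le _ _ _).trans (add_le_add le_rfl (lintegral_union_le _ _ _))
    _ ≤ ENNReal.ofReal (2 / h) + (ENNReal.ofReal (1 / h) + ENNReal.ofReal (1 / h)) := by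
        refine add_le_add ?_ (add_le_add ?_ ?_)
        · calc ∫⁻ s in Set.Icc (-(1 / h)) (1 / h), ENNReal.ofReal (min 1 (1 / (s ^ 2 * h ^ 2)))
              ≤ ∫⁻ s in Set.Icc (-(1 / h)) (1 / h), 1 := by
                refine lintegral_mono fun s => ?_
                rw [← ENNReal.ofReal_one]
                exact ENNReal.ofReal_le_ofReal (min_le_left _ _)
            _ = ENNReal.ofReal (2 / h) := by
                rw [setLIntegral_one, Real.volume_Icc]
                congr 1
                ring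
        · refine le_trans (lintegral_mono fun s => ?_) htail
          exact ENNReal.ofReal_le_ofReal (min_le_right _ _)
        · refine le_trans (lintegral_mono fun s => ?_) htail2
          exact ENNReal.ofReal_le_ofReal (min_le_right _ _)
    _ = ENNReal.ofReal (4 / h) := by
        rw [← ENNReal.ofReal_add (by positivity) (by positivity),
          ← ENNReal.ofReal_add (by positivity) (by positivity)]
        congr 1
        ring

theorem t_ENT : S_ENT := by
  intro μ K hμ ι _ _ B i j m h hh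
  obtain ⟨Bt, hBt⟩ : ∃ Bt : ℝ → Matrix ι ι ℝ, Bt = fun t =>
    B.updateRow i (Function.update (B i) j (t + m)) := ⟨_, rfl⟩
  obtain ⟨α, hα⟩ : ∃ α, α = B.adjugate j i := ⟨_, rfl⟩
  obtain ⟨β, hβ⟩ : ∃ β, β = ∑ k ∈ Finset.univ.erase j, B i k * B.adjugate k i := ⟨_, rfl⟩
  have hdet : ∀ t, (Bt t).det = (t + m) * α + β := by
    intro t
    rw [Matrix.det_eq_sum_mul_adjugate_row (Bt t) i, ← Finset.add_sum_erase _ _ (Finset.mem_univ j),
      hBt]
    simp only [adj_row, Matrix.updateRow_self]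
    rw [Function.update_self, ← hα, hβ]
    congr 1
    refine Finset.sum_congr rfl fun k hk => ?_
    rw [Function.update_of_ne (Finset.ne_of_mem_erase hk)]
  obtain ⟨z, hz⟩ : ∃ z, z = m + β / α := ⟨_, rfl⟩
  have hpt : ∀ t, (if h ^ 2 ≤ hsn (Bt t)⁻¹ then
      ENNReal.ofReal ((Bt t)⁻¹ j i ^ 2 / hsn (Bt t)⁻¹) else 0) ≤
      ENNReal.ofReal (min 1 (1 / ((t + z) ^ 2 * h ^ 2))) := by
    intro t
    split_ifs with hc
    · have hpos : 0 < hsn (Bt t)⁻¹ := lt_of_lt_of_le (by positivity) hc
      have hd : (Bt t).det ≠ 0 := by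
        intro h0
        have h1 : (Bt t)⁻¹ = 0 := Matrix.nonsing_inv_apply_not_isUnit _ (by
          rw [h0]; exact not_isUnit_zero)
        rw [h1] at hpos
        simp [hsn] at hpos
      have hx : (Bt t)⁻¹ j i = α / ((t + m) * α + β) := by
        rw [Matrix.inv_def, Matrix.smul_apply, smul_eq_mul, Ring.inverse_eq_inv', hdet t, hBt]
        simp only
        rw [adj_row, ← hα]
        ring
      rw [hdet t] at hd
      have hle : (Bt t)⁻¹ j i ^ 2 ≤ hsn (Bt t)⁻¹ := by
        unfold hsn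
        refine le_trans ?_ (Finset.single_le_sum (f := fun l => ∑ k, (Bt t)⁻¹ l k ^ 2)
          (fun l _ => Finset.sum_nonneg fun k _ => sq_nonneg _) (Finset.mem_univ j))
        exact Finset.single_le_sum (f := fun k => (Bt t)⁻¹ j k ^ 2) (fun k _ => sq_nonneg _)
          (Finset.mem_univ i)
      refine ENNReal.ofReal_le_ofReal (le_min ?_ ?_)
      · rw [div_le_one hpos]; exact hle
      · by_cases hα0 : α = 0
        · rw [hx, hα0]
          simp
          positivity
        · have hx2 : (Bt t)⁻¹ j i = 1 / (t + z) := by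
            rw [hx, hz]
            have h3 : (t + m) * α + β = α * (t + (m + β / α)) := by
              field_simp
              ring
            rw [h3]
            have h4 : t + (m + β / α) ≠ 0 := by
              intro h5
              rw [h3, h5, mul_zero] at hd
              exact hd rfl
            field_simp
          rw [hx2]
          have h4 : t + z ≠ 0 := by
            intro h5
            have h3 : (t + m) * α + β = α * (t + (m + β / α)) := by
              field_simp
              ring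
            rw [h3, ← hz, h5, mul_zero] at hd
            exact hd rfl
          have h5 : 0 < (t + z) ^ 2 := by positivity
          calc (1 / (t + z)) ^ 2 / hsn (Bt t)⁻¹ ≤ (1 / (t + z)) ^ 2 / h ^ 2 := by gcongr
            _ = 1 / ((t + z) ^ 2 * h ^ 2) := by field_simp
    · exact zero_le
  rw [hBt] at hpt
  calc ∫⁻ t, (if h ^ 2 ≤ hsn (B.updateRow i (Function.update (B i) j (t + m)))⁻¹ then
      ENNReal.ofReal ((B.updateRow i (Function.update (B i) j (t + m)))⁻¹ j i ^ 2 /
        hsn (B.updateRow i (Function.update (B i) j (t + m)))⁻¹) else 0) ∂μ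
      ≤ ∫⁻ t, ENNReal.ofReal (min 1 (1 / ((t + z) ^ 2 * h ^ 2))) ∂μ := lintegral_mono hpt
    _ ≤ ∫⁻ t, ENNReal.ofReal (min 1 (1 / ((t + z) ^ 2 * h ^ 2)))
          ∂(ENNReal.ofReal K • (volume : Measure ℝ)) := lintegral_mono' hμ.dens le_rfl
    _ = ENNReal.ofReal K * ∫⁻ t : ℝ, ENNReal.ofReal (min 1 (1 / ((t + z) ^ 2 * h ^ 2))) := by
        rw [lintegral_smul_measure, smul_eq_mul]
    _ = ENNReal.ofReal K * ∫⁻ t : ℝ, ENNReal.ofReal (min 1 (1 / (t ^ 2 * h ^ 2))) := by
        rw [lintegral_add_right_eq_self (fun t : ℝ =>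
          ENNReal.ofReal (min 1 (1 / (t ^ 2 * h ^ 2)))) z]
    _ ≤ ENNReal.ofReal K * ENNReal.ofReal (4 / h) := by
        gcongr
        exact int_min h hh
    _ = ENNReal.ofReal (4 * K / h) := by
        rw [← ENNReal.ofReal_mul hμ.Kpos.le]
        congr 1
        ring

end Pool.Agent.W991.SV
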