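import Mathlib
import Pool.Agent.W856.SV.Stms

set_option autoImplicit false

open MeasureTheory Matrix
open scoped ENNReal

namespace Pool.Agent.W991.SV

open Pool.Agent.W856.SV

/-- weighted union bound -/
theorem wunion {Ω κ : Type} [MeasurableSpace Ω] [Fintype κ] (P : Measure Ω) (E : Set Ω)
    (Ek : κ → Set Ω) (hm : ∀ k, MeasurableSet (Ek k)) (w : κ → ℝ) (hw : ∀ k, 0 ≤ w k) (q : ℝ)
    (hq : 0 ≤ q) (W : ℝ) (hW : ∑ k, w k ≤ W) (hP : ∀ k, 0 < w k → P (Ek k) ≤ ENNReal.ofReal q)
    (h : ∀ a ∈ E, 1 ≤ ∑ k, (Ek k).indicator (fun _ => w k) a) : P E ≤ ENNReal.ofReal (W * q) := by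
  have h1 : ∀ a ∈ E, 1 ≤ ∑ k, (Ek k).indicator (fun _ => ENNReal.ofReal (w k)) a := by
    intro a ha
    have h2 := h a ha
    have h3 : ∑ k, (Ek k).indicator (fun _ => ENNReal.ofReal (w k)) a =
        ENNReal.ofReal (∑ k, (Ek k).indicator (fun _ => w k) a) := by
      rw [ENNReal.ofReal_sum_of_nonneg]
      · refine Finset.sum_congr rfl fun k _ => ?_
        by_cases hk : a ∈ Ek k
        · rw [Set.indicator_of_mem hk, Set.indicator_of_mem hk]
        · rw [Set.indicator_of_notMem hk, Set.indicator_of_notMem hk, ENNReal.ofReal_zero]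
      · intro k _
        exact Set.indicator_nonneg (fun _ _ => hw k) a
    rw [h3, ← ENNReal.ofReal_one]
    exact ENNReal.ofReal_le_ofReal h2
  have hmeas : Measurable fun a => ∑ k, (Ek k).indicator (fun _ => ENNReal.ofReal (w k)) a :=
    Finset.measurable_fun_sum _ fun k _ => measurable_const.indicator (hm k)
  calc P E ≤ P {a | 1 ≤ ∑ k, (Ek k).indicator (fun _ => ENNReal.ofReal (w k)) a} :=
        measure_mono h1
    _ = 1 * P {a | 1 ≤ ∑ k, (Ek k).indicator (fun _ => ENNReal.ofReal (w k)) a} :=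
        (one_mul _).symm
    _ ≤ ∫⁻ a, ∑ k, (Ek k).indicator (fun _ => ENNReal.ofReal (w k)) a ∂P :=
        mul_meas_ge_le_lintegral hmeas 1
    _ = ∑ k, ENNReal.ofReal (w k) * P (Ek k) := by
        rw [lintegral_finsetSum' _ fun k _ => (measurable_const.indicator (hm k)).aemeasurable]
        refine Finset.sum_congr rfl fun k _ => ?_
        rw [lintegral_indicator_const (hm k)]
    _ ≤ ∑ k, ENNReal.ofReal (w k) * ENNReal.ofReal q := by
        refine Finset.sum_le_sum fun k _ => ?_
        rcases (hw k).eq_or_lt with h0 | h0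
        · rw [← h0, ENNReal.ofReal_zero, zero_mul, zero_mul]
        · gcongr
          exact hP k h0
    _ = ENNReal.ofReal ((∑ k, w k) * q) := by
        rw [← Finset.sum_mul, ← ENNReal.ofReal_sum_of_nonneg fun k _ => hw k,
          ENNReal.ofReal_mul (Finset.sum_nonneg fun k _ => hw k)]
    _ ≤ ENNReal.ofReal (W * q) := by
        refine ENNReal.ofReal_le_ofReal ?_
        gcongr

/-- Markov: the weight of the large values -/
theorem markov {κ : Type} [Fintype κ] (p y : κ → ℝ) (hp : ∀ k, 0 ≤ p k) (hy : ∀ k, 0 ≤ y k)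
    (t m : ℝ) (ht : 0 ≤ t) (hm : 0 < m) (h : ∑ k, p k * y k ≤ t) :
    ∑ k, (if m * t < y k then p k else 0) ≤ 1 / m := by
  rcases ht.eq_or_lt with h0 | h0
  · have h1 : ∀ k, p k * y k = 0 := by
      intro k
      have h2 : p k * y k ≤ ∑ k, p k * y k :=
        Finset.single_le_sum (f := fun k => p k * y k)
          (fun k _ => mul_nonneg (hp k) (hy k)) (Finset.mem_univ k)
      have h3 := mul_nonneg (hp k) (hy k)
      linarith
    have h2 : ∑ k, (if m * t < y k then p k else 0) = 0 := by
      refine Finset.sum_eq_zero fun k _ => ?_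
      split_ifs with h3
      · rw [← h0, mul_zero] at h3
        rcases mul_eq_zero.1 (h1 k) with h4 | h4
        · exact h4
        · exact absurd h4 h3.ne'
      · rfl
    rw [h2]
    positivity
  · have h1 : (∑ k, (if m * t < y k then p k else 0)) * (m * t) ≤ t := by
      rw [Finset.sum_mul]
      refine (Finset.sum_le_sum fun k _ => ?_).trans h
      split_ifs with h3
      · exact mul_le_mul_of_nonneg_left h3.le (hp k)
      · rw [zero_mul]; exact mul_nonneg (hp k) (hy k)
    have h2 : (∑ k, (if m * t < y k then p k else 0)) * m * t ≤ 1 * t := by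
      rw [mul_assoc, one_mul]; exact h1
    have h3 := le_of_mul_le_mul_right h2 h0
    rw [le_div_iff₀ hm]
    exact h3

theorem core {Ω κ : Type} [MeasurableSpace Ω] [Fintype κ] [DecidableEq κ] (P : Measure Ω)
    (N : Set Ω) (hN : MeasurableSet N) (x : κ → Ω → ℝ) (hx : ∀ k, Measurable (x k))
    (lam : κ → ℝ) (hl : ∀ k, 0 ≤ lam k) (hh : 0 < hs lam) (q : ℝ) (hq : 0 ≤ q)
    (hP : ∀ k l, k ≠ l → 0 < lam k → 0 < lam l → ∀ d₁ d₂ : ℝ, 0 ≤ d₁ → 0 ≤ d₂ →
      P (N ∩ {a | |x k a| ≤ d₁ ∧ |x l a| ≤ d₂}) ≤ ENNReal.ofReal (q * (d₁ * d₂)))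
    (s : ℝ) (hs0 : 0 ≤ s) :
    P (N ∩ {a | ∑ k, lam k * x k a ^ 2 ≤ s ^ 2}) ≤ ENNReal.ofReal (32 * q * (s ^ 2 / hs lam)) := by
  obtain ⟨T1, hT1⟩ : ∃ T1, T1 = ∑ k, lam k := ⟨_, rfl⟩
  obtain ⟨T2, hT2⟩ : ∃ T2, T2 = ∑ k, lam k ^ 2 := ⟨_, rfl⟩
  have hhs : hs lam = (T1 ^ 2 - T2) / T1 := by rw [hT1, hT2]; rfl
  have hT10 : 0 < T1 := by
    have h0 : 0 ≤ T1 := by rw [hT1]; exact Finset.sum_nonneg fun k _ => hl k
    rcases h0.eq_or_lt with h1 | h1
    · rw [hhs, ← h1, div_zero] at hh
      exact absurd hh (lt_irrefl _)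
    · exact h1
  have hT20 : 0 ≤ T2 := by rw [hT2]; exact Finset.sum_nonneg fun k _ => sq_nonneg _
  have hsT1 : hs lam ≤ T1 := by
    rw [hhs, div_le_iff₀ hT10]
    nlinarith
  have hmeas : ∀ (k l : κ) (d₁ d₂ : ℝ), MeasurableSet (N ∩ {a | |x k a| ≤ d₁ ∧ |x l a| ≤ d₂}) := by
    intro k l d₁ d₂
    refine hN.inter (MeasurableSet.inter ?_ ?_)
    · exact measurableSet_le (hx k).abs measurable_const
    · exact measurableSet_le (hx l).abs measurable_const
  rcases le_or_gt T2 (T1 ^ 2 / 2) with hcase | hcase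
  · -- Case I
    obtain ⟨τ, hτ⟩ : ∃ τ, τ = Real.sqrt (8 * (s ^ 2 / T1)) := ⟨_, rfl⟩
    have hτ2 : τ ^ 2 = 8 * (s ^ 2 / T1) := by rw [hτ]; exact Real.sq_sqrt (by positivity)
    have hτ0 : 0 ≤ τ := by rw [hτ]; positivity
    obtain ⟨p, hp⟩ : ∃ p : κ → ℝ, p = fun k => lam k / T1 := ⟨_, rfl⟩
    have hp0 : ∀ k, 0 ≤ p k := fun k => by rw [hp]; exact div_nonneg (hl k) hT10.le
    have hp1 : ∑ k, p k = 1 := by
      rw [hp]
      simp only
      rw [← Finset.sum_div, ← hT1, div_self hT10.ne']
    have hp2 : ∑ k, p k ^ 2 ≤ 1 / 2 := by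
      rw [hp]
      simp only [div_pow]
      rw [← Finset.sum_div, ← hT2, div_le_iff₀ (by positivity)]
      linarith
    have hmain := wunion P (N ∩ {a | ∑ k, lam k * x k a ^ 2 ≤ s ^ 2})
      (fun t : κ × κ => N ∩ {a | |x t.1 a| ≤ τ ∧ |x t.2 a| ≤ τ})
      (fun t => hmeas t.1 t.2 τ τ) (fun t => if t.1 = t.2 then 0 else 4 * (p t.1 * p t.2))
      (fun t => by
        split_ifs
        · exact le_rfl
        · have := hp0 t.1
          have := hp0 t.2
          positivity) (q * (τ * τ)) (by positivity) 4 (by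
        calc ∑ t : κ × κ, (if t.1 = t.2 then 0 else 4 * (p t.1 * p t.2))
            ≤ ∑ t : κ × κ, 4 * (p t.1 * p t.2) := by
              refine Finset.sum_le_sum fun t _ => ?_
              split_ifs
              · have := hp0 t.1
                have := hp0 t.2
                positivity
              · exact le_rfl
          _ = 4 * ((∑ k, p k) * ∑ l, p l) := by
              rw [← Finset.mul_sum, Fintype.sum_prod_type, Finset.sum_mul_sum]
          _ = 4 := by rw [hp1]; norm_num) (by
        intro t ht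
        by_cases htt : t.1 = t.2
        · simp [htt] at ht
        · rw [if_neg htt] at ht
          have hpp : 0 < p t.1 * p t.2 := by linarith
          have h1 : 0 < p t.1 := by
            rcases (hp0 t.1).eq_or_lt with h | h
            · rw [← h, zero_mul] at hpp; exact absurd hpp (lt_irrefl _)
            · exact h
          have h2 : 0 < p t.2 := by
            rcases (hp0 t.2).eq_or_lt with h | h
            · rw [← h, mul_zero] at hpp; exact absurd hpp (lt_irrefl _)
            · exact h
          have h3 : ∀ k, 0 < p k → 0 < lam k := by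
            intro k hk
            rw [hp] at hk
            simp only at hk
            exact (div_pos_iff_of_pos_right hT10).1 hk
          exact hP t.1 t.2 htt (h3 _ h1) (h3 _ h2) τ τ hτ0 hτ0) (by
        rintro a ⟨haN, ha⟩
        have ha' : ∑ k, lam k * x k a ^ 2 ≤ s ^ 2 := ha
        -- Markov
        have h1 : ∑ k, p k * x k a ^ 2 ≤ s ^ 2 / T1 := by
          rw [hp]
          simp only [div_mul_eq_mul_div]
          rw [← Finset.sum_div]
          gcongr
        have h2 := markov p (fun k => x k a ^ 2) hp0 (fun k => sq_nonneg _) (s ^ 2 / T1) 8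
          (by positivity) (by norm_num) h1
        rw [← hτ2] at h2
        obtain ⟨g, hg⟩ : ∃ g : κ → ℝ, g = fun k => if τ ^ 2 < x k a ^ 2 then 0 else p k := ⟨_, rfl⟩
        have hg0 : ∀ k, 0 ≤ g k := fun k => by
          rw [hg]
          simp only
          split_ifs
          · exact le_rfl
          · exact hp0 k
        have hgp : ∀ k, g k ≤ p k := fun k => by
          rw [hg]
          simp only
          split_ifs
          · exact hp0 k
          · exact le_rfl
        have h3 : 7 / 8 ≤ ∑ k, g k := by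
          have h4 : ∑ k, g k + ∑ k, (if τ ^ 2 < x k a ^ 2 then p k else 0) = 1 := by
            rw [← Finset.sum_add_distrib, ← hp1]
            refine Finset.sum_congr rfl fun k _ => ?_
            rw [hg]
            simp only
            split_ifs <;> ring
          linarith
        have hterm : ∀ t : κ × κ, (if t.1 = t.2 then 0 else 4 * (g t.1 * g t.2)) ≤
            (N ∩ {a | |x t.1 a| ≤ τ ∧ |x t.2 a| ≤ τ}).indicator
              (fun _ => if t.1 = t.2 then 0 else 4 * (p t.1 * p t.2)) a := by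
          intro t
          by_cases htt : t.1 = t.2
          · simp only [if_pos htt]
            exact Set.indicator_nonneg (fun _ _ => le_rfl) _
          · simp only [if_neg htt]
            by_cases hmem : a ∈ N ∩ {a | |x t.1 a| ≤ τ ∧ |x t.2 a| ≤ τ}
            · rw [Set.indicator_of_mem hmem]
              have := mul_le_mul (hgp t.1) (hgp t.2) (hg0 t.2) (hp0 t.1)
              linarith
            · rw [Set.indicator_of_notMem hmem]
              have h5 : ¬ (|x t.1 a| ≤ τ ∧ |x t.2 a| ≤ τ) := fun h => hmem ⟨haN, h⟩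
              have h6 : g t.1 = 0 ∨ g t.2 = 0 := by
                rw [not_and_or] at h5
                rcases h5 with h5 | h5
                · left
                  rw [hg]
                  simp only
                  rw [if_pos]
                  rw [sq_lt_sq, abs_of_nonneg hτ0]
                  exact not_le.1 h5
                · right
                  rw [hg]
                  simp only
                  rw [if_pos]
                  rw [sq_lt_sq, abs_of_nonneg hτ0]
                  exact not_le.1 h5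
              rcases h6 with h6 | h6 <;> rw [h6] <;> simp
        refine le_trans ?_ (Finset.sum_le_sum fun t _ => hterm t)
        have h7 : ∑ t : κ × κ, (if t.1 = t.2 then 0 else 4 * (g t.1 * g t.2)) =
            4 * ((∑ k, g k) ^ 2 - ∑ k, g k ^ 2) := by
          have h8 : ∀ t : κ × κ, (if t.1 = t.2 then (0 : ℝ) else 4 * (g t.1 * g t.2)) =
              4 * (g t.1 * g t.2) - (if t.1 = t.2 then 4 * (g t.1 * g t.2) else 0) := by
            intro t
            split_ifs <;> ring
          simp only [h8]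
          rw [Finset.sum_sub_distrib, Fintype.sum_prod_type, Fintype.sum_prod_type]
          simp only
          have h9 : ∑ k, ∑ l, (if k = l then 4 * (g k * g l) else 0) = ∑ k, 4 * g k ^ 2 := by
            refine Finset.sum_congr rfl fun k _ => ?_
            rw [Finset.sum_ite_eq]
            simp only [Finset.mem_univ, if_true]
            ring
          rw [h9, ← Finset.mul_sum, sq (∑ k, g k), Finset.sum_mul_sum]
          simp only [← Finset.mul_sum]
          ring
        rw [h7]
        have h10 : ∑ k, g k ^ 2 ≤ 1 / 2 := by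
          refine (Finset.sum_le_sum fun k _ => ?_).trans hp2
          have := hgp k
          have := hg0 k
          gcongr
        nlinarith)
    refine hmain.trans (ENNReal.ofReal_le_ofReal ?_)
    have h1 : 4 * (q * (τ * τ)) = 32 * q * (s ^ 2 / T1) := by
      rw [← sq, hτ2]; ring
    rw [h1]
    gcongr
  · -- Case II
    have hne : (Finset.univ : Finset κ).Nonempty := by
      by_contra hcon
      rw [Finset.not_nonempty_iff_eq_empty] at hcon
      rw [hT1, hcon, Finset.sum_empty] at hT10
      exact lt_irrefl _ hT10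
    obtain ⟨k0, _, hk0⟩ := Finset.exists_max_image Finset.univ lam hne
    have hmax : ∀ k, lam k ≤ lam k0 := fun k => hk0 k (Finset.mem_univ k)
    have h1 : T2 ≤ lam k0 * T1 := by
      rw [hT2, hT1, Finset.mul_sum]
      refine Finset.sum_le_sum fun k _ => ?_
      rw [sq]
      exact mul_le_mul_of_nonneg_right (hmax k) (hl k)
    have h2 : T1 / 2 < lam k0 := by
      have h3 : T1 ^ 2 / 2 < lam k0 * T1 := lt_of_lt_of_le hcase h1
      have h4 : T1 / 2 * T1 < lam k0 * T1 := by
        calc T1 / 2 * T1 = T1 ^ 2 / 2 := by ring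
          _ < _ := h3
      exact lt_of_mul_lt_mul_right h4 hT10.le
    obtain ⟨H, hH⟩ : ∃ H, H = T1 - lam k0 := ⟨_, rfl⟩
    have hHs : ∑ k ∈ Finset.univ.erase k0, lam k = H := by
      rw [hH, hT1, ← Finset.add_sum_erase _ _ (Finset.mem_univ k0)]
      ring
    have hle : lam k0 ≤ T1 := by
      rw [hT1]
      exact Finset.single_le_sum (fun k _ => hl k) (Finset.mem_univ k0)
    have h3 : hs lam ≤ 2 * H := by
      rw [hhs, div_le_iff₀ hT10, hH]
      have h4 : lam k0 ^ 2 ≤ T2 := by
        rw [hT2]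
        exact Finset.single_le_sum (f := fun k => lam k ^ 2) (fun k _ => sq_nonneg _)
          (Finset.mem_univ k0)
      nlinarith
    have hH0 : 0 < H := by linarith
    have hHl : H < lam k0 := by rw [hH]; linarith
    have hl0 : 0 < lam k0 := by linarith
    obtain ⟨d, hd⟩ : ∃ d, d = Real.sqrt (2 * (s ^ 2 / H)) := ⟨_, rfl⟩
    have hd2 : d ^ 2 = 2 * (s ^ 2 / H) := by rw [hd]; exact Real.sq_sqrt (by positivity)
    have hd0 : 0 ≤ d := by rw [hd]; positivity
    obtain ⟨p, hp⟩ : ∃ p : κ → ℝ, p = fun k => if k = k0 then 0 else lam k / H := ⟨_, rfl⟩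
    have hp0 : ∀ k, 0 ≤ p k := fun k => by
      rw [hp]
      simp only
      split_ifs
      · exact le_rfl
      · exact div_nonneg (hl k) hH0.le
    have hpe : ∀ f : κ → ℝ, ∑ k, p k * f k = (∑ k ∈ Finset.univ.erase k0, lam k * f k) / H := by
      intro f
      rw [← Finset.add_sum_erase _ _ (Finset.mem_univ k0), Finset.sum_div]
      have : p k0 = 0 := by rw [hp]; simp
      rw [this, zero_mul, zero_add]
      refine Finset.sum_congr rfl fun k hk => ?_
      rw [hp]
      simp only
      rw [if_neg (Finset.ne_of_mem_erase hk)]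
      ring
    have hp1 : ∑ k, p k = 1 := by
      have := hpe fun _ => 1
      simp only [mul_one] at this
      rw [this, hHs, div_self hH0.ne']
    have hmain := wunion P (N ∩ {a | ∑ k, lam k * x k a ^ 2 ≤ s ^ 2})
      (fun k => N ∩ {a | |x k0 a| ≤ d ∧ |x k a| ≤ d})
      (fun k => hmeas k0 k d d) (fun k => 2 * p k)
      (fun k => by
        have := hp0 k
        positivity) (q * (d * d)) (by positivity) 2 (by
        rw [← Finset.mul_sum, hp1]; norm_num) (by
        intro k hk
        have hpk : 0 < p k := by linarith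
        have hkk : k ≠ k0 := by
          rintro rfl
          rw [hp] at hpk
          simp at hpk
        have hlk : 0 < lam k := by
          rw [hp] at hpk
          simp only [if_neg hkk] at hpk
          exact (div_pos_iff_of_pos_right hH0).1 hpk
        exact hP k0 k hkk.symm hl0 hlk d d hd0 hd0) (by
        rintro a ⟨haN, ha⟩
        have ha' : ∑ k, lam k * x k a ^ 2 ≤ s ^ 2 := ha
        rw [← Finset.add_sum_erase _ _ (Finset.mem_univ k0)] at ha'
        have hn1 : 0 ≤ lam k0 * x k0 a ^ 2 := mul_nonneg (hl _) (sq_nonneg _)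
        have hn2 : 0 ≤ ∑ k ∈ Finset.univ.erase k0, lam k * x k a ^ 2 :=
          Finset.sum_nonneg fun k _ => mul_nonneg (hl _) (sq_nonneg _)
        have hx0 : |x k0 a| ≤ d := by
          rw [← abs_of_nonneg hd0, ← sq_le_sq, hd2]
          have h5 : x k0 a ^ 2 ≤ s ^ 2 / H := by
            rw [le_div_iff₀ hH0]
            nlinarith [sq_nonneg (x k0 a)]
          have : 0 ≤ s ^ 2 / H := by positivity
          linarith
        have h5 : ∑ k, p k * x k a ^ 2 ≤ s ^ 2 / H := by
          rw [hpe]
          gcongr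
          linarith
        have h6 := markov p (fun k => x k a ^ 2) hp0 (fun k => sq_nonneg _) (s ^ 2 / H) 2
          (by positivity) (by norm_num) h5
        rw [← hd2] at h6
        have hterm : ∀ k, 2 * (p k - (if d ^ 2 < x k a ^ 2 then p k else 0)) ≤
            (N ∩ {a | |x k0 a| ≤ d ∧ |x k a| ≤ d}).indicator (fun _ => 2 * p k) a := by
          intro k
          by_cases h7 : d ^ 2 < x k a ^ 2
          · rw [if_pos h7]
            simp only [sub_self, mul_zero]
            exact Set.indicator_nonneg (fun _ _ => by have := hp0 k; positivity) _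
          · rw [if_neg h7, Set.indicator_of_mem]
            · simp
            · refine ⟨haN, hx0, ?_⟩
              rw [← abs_of_nonneg hd0, ← sq_le_sq]
              exact not_lt.1 h7
        refine le_trans ?_ (Finset.sum_le_sum fun k _ => hterm k)
        rw [← Finset.mul_sum, Finset.sum_sub_distrib, hp1]
        linarith)
    refine hmain.trans (ENNReal.ofReal_le_ofReal ?_)
    have h4 : 2 * (q * (d * d)) = 4 * q * (s ^ 2 / H) := by
      rw [← sq, hd2]; ring
    rw [h4]
    have h5 : s ^ 2 / H ≤ 2 * (s ^ 2 / hs lam) := by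
      rw [← mul_div_assoc, div_le_div_iff₀ hH0 hh]
      nlinarith [sq_nonneg s]
    have h6 : 0 ≤ s ^ 2 / hs lam := by positivity
    calc 4 * q * (s ^ 2 / H) ≤ 4 * q * (2 * (s ^ 2 / hs lam)) := by gcongr
      _ ≤ 32 * q * (s ^ 2 / hs lam) := by nlinarith [mul_nonneg hq h6]

theorem meas_dot {ι : Type} [Fintype ι] (v : ι → ℝ) (c : ι → ℝ) :
    Measurable fun a : ι → ℝ => v ⬝ᵥ (a + c) := by
  unfold dotProduct
  exact Finset.measurable_fun_sum _ fun i _ =>
    ((measurable_pi_apply i).add_const _).const_mul _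

theorem t_SBB (h : S_SB) : S_SBB := by
  intro μ K hμ
  obtain ⟨C, hC, _, _, h3⟩ := h μ K hμ
  refine ⟨32 * C, by positivity, ?_⟩
  intro ι _ _ ν u lam hR hh c δ s hδ hs0
  have key := core (Pr μ ι) {a | |ν ⬝ᵥ (a + c)| ≤ δ}
    (measurableSet_le (meas_dot ν c).abs measurable_const) (fun k a => u k ⬝ᵥ (a + c))
    (fun k => meas_dot _ _) lam hR.lam0 hh (C * δ) (by positivity) (by
      intro k l hkl hk hl d₁ d₂ hd₁ hd₂
      have hk0 := hR.perp k hk
      have hl0 := hR.perp l hl
      have := h3 ι ν (u k) (u l) (ν ⬝ᵥ c) (u k ⬝ᵥ c) (u l ⬝ᵥ c) δ d₁ d₂ hR.nu1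
        (by rw [hR.on]; simp) (by rw [hR.on]; simp) (by rw [dotProduct_comm]; exact hk0)
        (by rw [dotProduct_comm]; exact hl0) (by rw [hR.on]; simp [hkl]) hδ hd₁ hd₂
      refine le_trans (measure_mono ?_) (this.trans (ENNReal.ofReal_le_ofReal (le_of_eq (by ring))))
      rintro a ⟨h4, h5, h6⟩
      have h4' : |ν ⬝ᵥ (a + c)| ≤ δ := h4
      have h5' : |u k ⬝ᵥ (a + c)| ≤ d₁ := h5
      have h6' : |u l ⬝ᵥ (a + c)| ≤ d₂ := h6
      rw [dotProduct_add] at h4' h5' h6'
      exact ⟨h4', h5', h6'⟩) s hs0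
  refine le_trans (measure_mono ?_) (key.trans (ENNReal.ofReal_le_ofReal (le_of_eq (by ring))))
  rintro a ⟨h4, h5⟩
  exact ⟨h4, h5⟩

theorem t_SBN (h : S_SB) : S_SBN := by
  intro μ K hμ
  obtain ⟨C, hC, _, h2, _⟩ := h μ K hμ
  refine ⟨32 * C, by positivity, ?_⟩
  intro ι _ _ u lam hon hlam hh c s hs0
  have key := core (Pr μ ι) Set.univ MeasurableSet.univ (fun k a => u k ⬝ᵥ (a + c))
    (fun k => meas_dot _ _) lam hlam hh C hC.le (by
      intro k l hkl hk hl d₁ d₂ hd₁ hd₂
      have := h2 ι (u k) (u l) (u k ⬝ᵥ c) (u l ⬝ᵥ c) d₁ d₂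
        (by rw [hon]; simp) (by rw [hon]; simp) (by rw [hon]; simp [hkl]) hd₁ hd₂
      refine le_trans (measure_mono ?_) this
      rintro a ⟨_, h5, h6⟩
      have h5' : |u k ⬝ᵥ (a + c)| ≤ d₁ := h5
      have h6' : |u l ⬝ᵥ (a + c)| ≤ d₂ := h6
      rw [dotProduct_add] at h5' h6'
      exact ⟨h5', h6'⟩) s hs0
  refine le_trans (measure_mono ?_) key
  intro a h5
  exact ⟨Set.mem_univ _, h5⟩

end Pool.Agent.W991.SV
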